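import Pool.Agent.Helper12.BK.Base
import Pool.Agent.N375.AV.D

/-!
# MP_cbe134_nt: relations of depth `r` near the values of additive functions

A pattern in one variable `s` is a list of letters `b + u s`; at a natural number `s` it gives an index. The first letters
may be constant, as in `ζ(5, 1, s, 3, 2 s + 1)`. Let `Λ` be a finite set of admissible patterns of the same weight and of
depth at most `r`. We consider the relations `∑ c_w ζ(w(s)) = 0`, `w ∈ Λ`, with integers `c_w` of absolute value at most
`C ^ s`, that is, the relations of exponential height between the classes of the values of depth `r` in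
`Fil_r / Fil_{r - 1}`.

Let `F = f_1 ∘ ⋯ ∘ f_k` be a composition of functions dominated by the largest prime factor (`PD`), for example additive
functions `f` with `f (q^j) ≤ C q^j` at the prime powers, with different values at different large primes (the sum of the
prime factors), the largest prime factor itself, and Kempner's function. Let `G` have steps bounded below by a positive
constant and at most polynomial growth, for example `G v = v`, and `0 ≤ κ < 1`. For all `m ≤ M` but
`K M exp (- b (log M)^(1 / (k + 1)))`, for ALL natural numbers `s` with `|s - G (F m)| ≤ F(m) ^ κ` every such relation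
splits: its part of depth `r` is a combination `∑ ρ(u, v) (u ⧢ v)` of shuffles of constant indices `u` and patterns `v`
whose first letter is not constant, where for every `v` the number `∑_u ρ(u, v) ζ(u)` is in the span of the values of the
same weight and of smaller depth; and `c_w = 0` for all `w` of depth `r` if the patterns of depth `r` have at most one
constant letter in front.

The values of `F` are taken with very large multiplicities and `F(m)` is in general much smaller than `m`. So this does
not follow from the number of the exceptional `s` alone (`ManyVariables`: boundedly many in `[N, κ N]`; it is not known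
that there are only finitely many of them).

Proof: the starting library `N375/AV` (preimages of thin sets under functions dominated by the largest prime factor) and
the starting theorem `MP_cbe134_nt.ManyVariables`.
-/

set_option autoImplicit false

namespace Pool.Agent.Results.MP_cbe134_nt.AdditiveFunctions

open Pool.Agent.Helper12.BK (SplitsAt)
open Pool.Agent.Results.MP_cbe134_nt.ManyVariables (Letter AdmissiblePattern)
open Pool.Agent.N733.TG (Expanding expanding_pow)
open Pool.Agent.N375.AV (PD comp good pd_additive pd_largest pd_kempner)

/-- **Relations of depth `r` near the values of compositions of additive functions.** Let `Λ` be a finite set of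
admissible patterns in one variable, of the same weight `S` and of depth at most `r`, `C` a real number, `F = comp fs` a
composition of `k` functions dominated by the largest prime factor, `G` with steps `≥ a > 0` and growth at most `v ^ e`, and
`0 ≤ κ < 1`. For all `m ≤ M` but `K M exp (- b (log M)^(1 / (k + 1)))`, for ALL natural numbers `s` with
`|s - G (F m)| ≤ F(m) ^ κ` every relation `∑ c_w ζ(w(s)) = 0`, `w ∈ Λ`, with integers `c_w` of absolute value at most
`C ^ s` splits, and `c_w = 0` for all `w` of depth `r` if the patterns of depth `r` have at most one constant letter in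
front (`SplitsAt`). The additive functions with `f (q^j) ≤ C q^j` which are injective at the large primes, the largest
prime factor and Kempner's function are examples of such functions, and `α v ^ e` with `α > 0`, `e ≥ 1` is an example of
`G`. -/
theorem result :
    (∀ (r : ℕ) (S : Letter 1) (Λ : Finset (List (Letter 1))), (∀ w ∈ Λ, AdmissiblePattern w) →
      (∀ w ∈ Λ, w.length ≤ r) → (∀ w ∈ Λ, w.sum = S) → ∀ C : ℝ,
      ∀ fs : List (ℕ → ℕ), (∀ f ∈ fs, PD f) →
      ∀ (G : ℕ → ℝ) (e : ℝ), Expanding G e → ∀ κ : ℝ, 0 ≤ κ → κ < 1 →
      ∃ b K : ℝ, 0 < b ∧ ∀ M : ℕ, 1 ≤ M →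
      ({m : ℕ | 1 ≤ m ∧ m ≤ M ∧ ¬ ∀ s : ℕ, |(s : ℝ) - G (comp fs m)| ≤ (comp fs m : ℝ) ^ κ →
          SplitsAt Λ r S C s}.ncard : ℝ) ≤
        K * M * Real.exp (-(b * Real.log M ^ ((1 : ℝ) / (fs.length + 1))))) ∧
    (∀ f : ℕ → ℕ, (∀ a b : ℕ, Nat.Coprime a b → f (a * b) = f a + f b) →
      (∃ C : ℕ, ∀ q j : ℕ, q.Prime → 1 ≤ j → f (q ^ j) ≤ C * q ^ j) →
      (∃ P : ℕ, ∀ p q : ℕ, p.Prime → q.Prime → P ≤ p → P ≤ q → f p = f q → p = q) → PD f) ∧
    (PD (fun n => n.primeFactors.sup id) ∧ PD (fun n => sInf {k : ℕ | n ∣ k.factorial})) ∧
    ∀ α e : ℝ, 0 < α → 1 ≤ e → Expanding (fun v => α * (v : ℝ) ^ e) e := by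
  refine ⟨?_, fun f h2 h3 h4 => pd_additive h2 h3 h4, ⟨pd_largest, pd_kempner⟩,
    fun α e hα he => expanding_pow hα he⟩
  intro r S Λ hΛ hr hS C fs hfs G e hG κ hκ h1
  obtain ⟨b, K, hb, hbK⟩ := good (fun _ : ℕ => True) (fun s : ℕ => SplitsAt Λ r S C s)
    (fun s : ℕ => (s : ℝ)) fs hfs hG (s := 0) (κ := κ) le_rfl hκ (by rw [mul_zero, zero_add]; exact h1)
    (Pool.Agent.Helper12.BK.count r S Λ hΛ hr hS C)
  refine ⟨b, K, hb, fun M hM => le_trans (le_of_eq ?_) (hbK M hM)⟩
  congr 2
  ext m
  simp

end Pool.Agent.Results.MP_cbe134_nt.AdditiveFunctions
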