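import Pool.Agent.Helper12.BK.Base
import Pool.Agent.N790.CM.C

/-!
# MP_cbe134_nt: relations of depth `r` at all multiples of Carmichael's function of almost all integers

A pattern in one variable `s` is a list of letters `b + u s`; at a natural number `s` it gives an index. The first letters
may be constant, as in `ζ(5, 1, s, 3, 2 s + 1)`. Let `Λ` be a finite set of admissible patterns of the same weight and of
depth at most `r`. We consider the relations `∑ c_w ζ(w(s)) = 0`, `w ∈ Λ`, with integers `c_w` of absolute value at most
`C ^ s`, that is, the relations of exponential height between the classes of the values of depth `r` in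
`Fil_r / Fil_{r - 1}`.

Let `G` have steps bounded below by a positive constant and at most polynomial growth, for example `G v = v`, `B ≥ 1` and
`0 ≤ κ < 1 / B`. For all `u ≤ M` but `M / (log M) ^ A` and ALL multiples `w ≤ M ^ B` of Carmichael's function `λ(u)` (for
example Euler's function `φ(u)`), for ALL natural numbers `s` with `|s - G(w)| ≤ w ^ κ` every such relation splits: its part
of depth `r` is a combination `∑ ρ(u, v) (u ⧢ v)` of shuffles of constant indices `u` and patterns `v` whose first letter
is not constant, where for every `v` the number `∑_u ρ(u, v) ζ(u)` is in the span of the values of the same weight and of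
smaller depth; and `c_w = 0` for all `w` of depth `r` if the patterns of depth `r` have at most one constant letter in
front. The same is true for the common multiples `w` of the numbers `F p`, `p` the large primes which divide `u` exactly
once, if `F` takes each positive value at boundedly many primes, for example `F p = |P(p)|` for a nonconstant
polynomial `P`.

Some `w` are multiples of `λ(u)` for more than `M ^ (1 - δ)` of the `u ≤ M`. So this does not follow from the number
of the exceptional `s` alone (`ManyVariables`: boundedly many in `[N, κ N]`; it is not known that there are only finitely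
many of them).

Proof: the starting library `N790/CM` (common multiples) and the starting theorem `MP_cbe134_nt.ManyVariables`.
-/

set_option autoImplicit false

namespace Pool.Agent.Results.MP_cbe134_nt.CarmichaelMultiples

open Pool.Agent.Helper12.BK (SplitsAt)
open Pool.Agent.Results.MP_cbe134_nt.ManyVariables (Letter AdmissiblePattern)
open Pool.Agent.N733.TG (Expanding expanding_pow)
open Pool.Agent.N790.CM (FewTimes Carries OnMultiples OnCarmichael fewTimes_pred fewTimes_poly keep_good)

/-- **Relations of depth `r` at all multiples of Carmichael's function.** Let `Λ` be a finite set of admissible patterns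
in one variable, of the same weight `S` and of depth at most `r`, `C` a real number, `G` with steps `≥ a > 0` and growth
at most `v ^ e`, `κ ≥ 0`, `B ≥ 1` and `B κ < 1`. For all `u ≤ M` but `M / (log M) ^ A` and ALL multiples `w ≤ M ^ B` of
`λ(u)`, and also for all common multiples `w ≤ M ^ B` of the numbers `F p`, `p > exp (√(log M))` a prime which divides `u`
exactly once, `F` any function which takes each positive value at boundedly many primes, for ALL natural numbers `s` with
`|s - G w| ≤ w ^ κ` every relation `∑ c_w ζ(w(s)) = 0`, `w ∈ Λ`, with integers `c_w` of absolute value at most `C ^ s`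
splits, and `c_w = 0` for all `w` of depth `r` if the patterns of depth `r` have at most one constant letter in front
(`SplitsAt`). Examples of `F` are `p - 1` and `|P(p)|`, `P` a nonconstant polynomial, and `α v ^ e` with `α > 0`, `e ≥ 1` is
an example of `G`. -/
theorem result :
    (∀ (r : ℕ) (S : Letter 1) (Λ : Finset (List (Letter 1))), (∀ w ∈ Λ, AdmissiblePattern w) →
      (∀ w ∈ Λ, w.length ≤ r) → (∀ w ∈ Λ, w.sum = S) → ∀ (C : ℝ) (G : ℕ → ℝ) (e : ℝ), Expanding G e →
      ∀ κ B : ℝ, 0 ≤ κ → 1 ≤ B → B * κ < 1 →
      OnMultiples B (fun w => ∀ s : ℕ, |(s : ℝ) - G w| ≤ (w : ℝ) ^ κ → SplitsAt Λ r S C s) ∧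
      OnCarmichael B (fun w => ∀ s : ℕ, |(s : ℝ) - G w| ≤ (w : ℝ) ^ κ → SplitsAt Λ r S C s)) ∧
    (FewTimes (fun p => p - 1) 1 ∧
      (∀ P : Polynomial ℤ, 1 ≤ P.natDegree →
        FewTimes (fun p => (P.eval (p : ℤ)).natAbs) (2 * P.natDegree)) ∧
      ∀ α e : ℝ, 0 < α → 1 ≤ e → Expanding (fun v => α * (v : ℝ) ^ e) e) := by
  refine ⟨?_, fewTimes_pred, fun P hP => fewTimes_poly P hP, fun α e hα he => expanding_pow hα he⟩
  intro r S Λ hΛ hr hS C G e hG κ B hκ hB h1
  have key : OnMultiples B (fun w => ∀ s : ℕ, |(s : ℝ) - G w| ≤ (w : ℝ) ^ κ → SplitsAt Λ r S C s) :=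
    (keep_good (fun _ : ℕ => True) (fun s : ℕ => SplitsAt Λ r S C s)
      (fun s : ℕ => (s : ℝ)) hG (s := 0) (κ := κ) (B := B) le_rfl hκ hB (by rw [mul_zero, zero_add]; exact h1)
      (Pool.Agent.Helper12.BK.count r S Λ hΛ hr hS C)).mono fun w _ hw s hs => hw s trivial hs
  exact ⟨key, key.carmichael⟩

end Pool.Agent.Results.MP_cbe134_nt.CarmichaelMultiples
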