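import Pool.Agent.Helper12.BK.Base
import Pool.Agent.R482.ST.Star

/-!
# MP_cbe134_nt: relations of depth `r` near powers, orbits and other sequences with a real parameter

A pattern in one variable `s` is a list of letters `b + u s`; at a natural number `s` it gives an index. The first letters
may be constant, as in `ζ(5, 1, s, 3, 2 s + 1)`. Let `Λ` be a finite set of admissible patterns of the same weight and of
depth at most `r`. We consider the relations `∑ c_w ζ(w(s)) = 0`, `w ∈ Λ`, with integers `c_w` of absolute value at most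
`C ^ s`, that is, the relations of exponential height between the classes of the values of depth `r` in
`Fil_r / Fil_{r - 1}`.

Let `f_n`, `n = 0, 1, 2, …`, be positive functions on `(a, ∞)`, `a ≥ 0`, such that `f_n(t) / t` is nondecreasing, and such
that the sequence `f_n(t)` has exponent of convergence at most `τ` for each `t > a`: for instance `f_n(t) = t ^ (v_n)` for
exponents `v_n ≥ 1` (`τ = 0`; all powers, the powers `t ^ (3 ^ n)` of Mills, …), the orbits `f_n(t) = g (g (⋯ g (t)))` of
any map `g` with `g(t) > t` and `g(t) / t` nondecreasing (`τ = 0`; for instance of `t² + c`), and `f_n(t) = v_n t`.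
Let `θ < 1`. For all `α > a` outside a set of Hausdorff dimension at most `τ / (1 - θ)` (for `τ = 0`, outside a set of
Hausdorff dimension ZERO), every `κ`, all but finitely many `n` and ALL natural numbers `s` with
`|s - f_n(α)| ≤ κ f_n(α) ^ θ` every such relation splits: its part of depth `r` is a combination `∑ ρ(u, v) (u ⧢ v)` of
shuffles of constant indices `u` and patterns `v` whose first letter is not constant, where for every `v` the number
`∑_u ρ(u, v) ζ(u)` is in the span of the values of the same weight and of smaller depth; and `c_w = 0` for all `w` of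
depth `r` if the patterns of depth `r` have at most one constant letter in front.

It is not known that there are only finitely many exceptional `s`; by the starting theorem `ManyVariables` there are
boundedly many in `[N, κ N]`. The starting theorem `AlongRealTuples` has only the dilates `N ξ` with `N` in a sparse set
of integers, where it is a statement on almost all `ξ`, with an exceptional set of positive dimension.

Proof: the starting library `R482/ST` (thin sets in windows around starshaped functions) and the starting theorem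
`MP_cbe134_nt.ManyVariables`.
-/

set_option autoImplicit false

namespace Pool.Agent.Results.MP_cbe134_nt.PowersAndOrbits

open Pool.Agent.Helper12.BK (SplitsAt)
open Pool.Agent.Results.MP_cbe134_nt.ManyVariables (Letter AdmissiblePattern)

/-- the functions `f n` are positive on `(a, ∞)`, `a ≥ 0`, and `f n x / x` is nondecreasing there -/
def Starshaped (a : ℝ) (f : ℕ → ℝ → ℝ) : Prop :=
  0 ≤ a ∧ ∀ n : ℕ, ∀ x y : ℝ, a < x → x ≤ y → 0 < f n x ∧ f n x / x ≤ f n y / y

/-- for each `x > a` the exponent of convergence of the sequence `f n x` is at most `τ` -/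
def ExpLe (a : ℝ) (f : ℕ → ℝ → ℝ) (τ : ℝ) : Prop :=
  ∀ x : ℝ, a < x → ∀ t : ℝ, τ < t → Summable (fun n : ℕ => (f n x) ^ (-t))

/-- **Relations of depth `r` near starshaped functions of a real parameter.** Let `Λ` be a finite set of admissible
patterns in one variable, of the same weight `S` and of depth at most `r`, and `C` a real number. For all starshaped
functions `f` on `(a, ∞)` of exponent of convergence at most `τ ≥ 0` and `θ < 1` there is a set `E` of Hausdorff dimension
at most `τ / (1 - θ)` such that for each `α > a` outside `E`, each `κ`, all but finitely many `n` and ALL natural numbers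
`s` with `|s - f_n(α)| ≤ κ f_n(α) ^ θ` every relation `∑ c_w ζ(w(s)) = 0`, `w ∈ Λ`, with integers `c_w` of absolute value
at most `C ^ s` splits, and `c_w = 0` for all `w` of depth `r` if the patterns of depth `r` have at most one constant
letter in front (`SplitsAt`). The functions `v_n x`, `v_n > 0`, are starshaped on `(0, ∞)`, of exponent `τ` if `v` has
exponent of convergence at most `τ`; the functions `x ^ (v_n)`, `v_n ≥ 1`, are starshaped on `(1, ∞)`, of exponent `0` if
the sums of `exp (-t v_n)` converge for `t > 0`; and the iterates of a map `g` with `g(x) > x` for `x > a` and `g(x) / x`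
nondecreasing are starshaped on `(a, ∞)`, of exponent `0`. -/
theorem result :
    (∀ (r : ℕ) (S : Letter 1) (Λ : Finset (List (Letter 1))), (∀ w ∈ Λ, AdmissiblePattern w) →
      (∀ w ∈ Λ, w.length ≤ r) → (∀ w ∈ Λ, w.sum = S) → ∀ C : ℝ,
      ∀ (a : ℝ) (f : ℕ → ℝ → ℝ) (τ θ : ℝ), Starshaped a f → 0 ≤ τ → ExpLe a f τ → θ < 1 →
      ∃ E : Set ℝ, dimH E ≤ ENNReal.ofReal (τ / (1 - θ)) ∧
        ∀ α : ℝ, a < α → α ∉ E → ∀ κ : ℝ, ∃ n₀ : ℕ, ∀ n : ℕ, n₀ ≤ n → ∀ s : ℕ,
          |(s : ℝ) - f n α| ≤ κ * (f n α) ^ θ → SplitsAt Λ r S C s) ∧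
    (∀ (v : ℕ → ℝ) (τ : ℝ), (∀ n, 0 < v n) → (∀ t : ℝ, τ < t → Summable (fun n : ℕ => (v n) ^ (-t))) →
      Starshaped 0 (fun n x => v n * x) ∧ ExpLe 0 (fun n x => v n * x) τ) ∧
    (∀ v : ℕ → ℝ, (∀ n, 1 ≤ v n) → (∀ t : ℝ, 0 < t → Summable fun n : ℕ => Real.exp (-(t * v n))) →
      Starshaped 1 (fun n x => x ^ (v n)) ∧ ExpLe 1 (fun n x => x ^ (v n)) 0) ∧
    (∀ (a : ℝ) (g : ℝ → ℝ), 0 ≤ a → (∀ x y : ℝ, a < x → x ≤ y → g x / x ≤ g y / y) → (∀ x : ℝ, a < x → x < g x) →
      Starshaped a (fun n x => g^[n] x) ∧ ExpLe a (fun n x => g^[n] x) 0) := by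
  refine ⟨?_, Pool.Agent.R482.ST.ex_mul, Pool.Agent.R482.ST.ex_pow, Pool.Agent.R482.ST.ex_orbit⟩
  intro r S Λ hΛ hr hS C a f τ θ hf hτ hE hθ1
  have hc := Pool.Agent.Helper12.BK.count r S Λ hΛ hr hS C
  simp only [true_and] at hc
  obtain ⟨E, h2, h3⟩ := Pool.Agent.R482.ST.windows {s : ℕ | ¬ SplitsAt Λ r S C s} (fun s : ℕ => (s : ℝ))
    hf hτ hE (s := 0) le_rfl hθ1 hc
  rw [zero_add] at h2
  refine ⟨E, h2, fun α hα hαE κ => ?_⟩
  obtain ⟨n₀, hn⟩ := h3 α hα hαE κ
  refine ⟨n₀, fun n hn1 s hs => ?_⟩
  by_contra hcon
  exact absurd (hn n hn1 s hcon) (not_lt.2 hs)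

end Pool.Agent.Results.MP_cbe134_nt.PowersAndOrbits
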