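import Pool.Agent.Helper12.BK.Base
import Pool.Agent.N760.IT.D

/-!
# MP_cbe134_nt: relations of depth `r` near the members of almost all orbits of Euler's function

A pattern in one variable `s` is a list of letters `b + u s`; at a natural number `s` it gives an index. The first letters
may be constant, as in `ζ(5, 1, s, 3, 2 s + 1)`. Let `Λ` be a finite set of admissible patterns of the same weight and of
depth at most `r`. We consider the relations `∑ c_w ζ(w(s)) = 0`, `w ∈ Λ`, with integers `c_w` of absolute value at most
`C ^ s`, that is, the relations of exponential height between the classes of the values of depth `r` in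
`Fil_r / Fil_{r - 1}`.

Let `φ_k` be the `k`-th iterate of Euler's function, `φ_0(m) = m`. Let `f` be a positive multiplicative function of at most
polynomial growth such that `f p ≤ M p` for the large primes `p`, with different values at different large primes; for
example the identity, Euler's function or the sum of the divisors. Let `G` have steps bounded below by a positive constant
and at most polynomial growth, for example `G v = v`, and `0 ≤ κ < 1`. There is `K(m)` tending to infinity such that for
almost all `m`, for all `k ≤ K(m)`, with `v = f(φ_k(m))`, for ALL natural numbers `s` with `|s - G v| ≤ v ^ κ` every such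
relation splits: its part of depth `r` is a combination `∑ ρ(u, v) (u ⧢ v)` of shuffles of constant indices `u` and
patterns `v` whose first letter is not constant, where for every `v` the number `∑_u ρ(u, v) ζ(u)` is in the span of the
values of the same weight and of smaller depth; and `c_w = 0` for all `w` of depth `r` if the patterns of depth `r` have
at most one constant letter in front.

The numbers `φ_k(m)` are in a very thin set and are in general taken with very large multiplicities, so that this does not
follow from the number of the exceptional `s` alone (`ManyVariables`: boundedly many in `[N, κ N]`; it is not known that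
there are only finitely many of them). The result MultiplicativeValues is about single values `k ≤ 1`.

Proof: the starting library `N760/IT` and the starting theorem `MP_cbe134_nt.ManyVariables`.
-/

set_option autoImplicit false

namespace Pool.Agent.Results.MP_cbe134_nt.TotientOrbits

open Filter
open Pool.Agent.Helper12.BK (SplitsAt)
open Pool.Agent.Results.MP_cbe134_nt.ManyVariables (Letter AdmissiblePattern)
open Pool.Agent.N733.TG (LM Expanding lm_totient lm_sigma expanding_pow)
open Pool.Agent.N760.IT (orb lm_id orbit_windows)
open Pool.Agent.N826.IT.Orb (AlmostAll)

/-- **Relations of depth `r` near the orbits of Euler's function.** Let `Λ` be a finite set of admissible patterns in one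
variable, of the same weight `S` and of depth at most `r`, and `C` a real number. Let `f` be multiplicative and positive,
of at most polynomial growth, with `f p ≤ M p` at the large primes, and injective there; let `G` have steps `≥ a > 0` and
growth at most `v ^ e`, and `0 ≤ κ < 1`. Then there is `K(m)` tending to infinity such that for almost all `m`, for all
`k ≤ K(m)`, with `v = f(φ_k(m))` (`orb f k m`), for ALL natural numbers `s` with `|s - G v| ≤ v ^ κ` every relation
`∑ c_w ζ(w(s)) = 0`, `w ∈ Λ`, with integers `c_w` of absolute value at most `C ^ s` splits, and `c_w = 0` for all `w` of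
depth `r` if the patterns of depth `r` have at most one constant letter in front (`SplitsAt`). The identity, Euler's
function and the sum of the divisors are examples of such functions `f`, and `α v ^ e` with `α > 0`, `e ≥ 1` is an example
of `G`. -/
theorem result :
    (∀ (r : ℕ) (S : Letter 1) (Λ : Finset (List (Letter 1))), (∀ w ∈ Λ, AdmissiblePattern w) →
      (∀ w ∈ Λ, w.length ≤ r) → (∀ w ∈ Λ, w.sum = S) → ∀ C : ℝ,
      ∀ f : ℕ → ℕ, LM f → ∀ (G : ℕ → ℝ) (e : ℝ), Expanding G e → ∀ κ : ℝ, 0 ≤ κ → κ < 1 →
      ∃ K : ℕ → ℕ, Tendsto K atTop atTop ∧
        AlmostAll (fun m => ∀ k ≤ K m, ∀ s : ℕ,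
          |(s : ℝ) - G (orb f k m)| ≤ (orb f k m : ℝ) ^ κ → SplitsAt Λ r S C s)) ∧
    (LM (fun m => m) ∧ LM Nat.totient ∧ LM (fun m => ∑ d ∈ m.divisors, d)) ∧
    ∀ α e : ℝ, 0 < α → 1 ≤ e → Expanding (fun v => α * (v : ℝ) ^ e) e := by
  refine ⟨?_, ⟨lm_id, lm_totient, lm_sigma⟩, fun α e hα he => expanding_pow hα he⟩
  intro r S Λ hΛ hr hS C f hf G e hG κ hκ h1
  have hc := Pool.Agent.Helper12.BK.count r S Λ hΛ hr hS C
  simp only [true_and] at hc
  obtain ⟨K, hK, h2⟩ := orbit_windows {s : ℕ | ¬ SplitsAt Λ r S C s}
    (fun s : ℕ => (s : ℝ)) hf hG (s := 0) (κ := κ) le_rfl hκ (by rw [mul_zero, zero_add]; exact h1) hc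
  refine ⟨K, hK, ?_⟩
  refine Pool.Agent.N826.IT.Orb.almostAll_mono h2 fun m h k hk s hs => ?_
  by_contra h5
  exact h k hk s h5 hs

end Pool.Agent.Results.MP_cbe134_nt.TotientOrbits
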